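import Pool.Agent.Y682.YS.Main
import Pool.Agent.Y682.YS.Prod
import Pool.Agent.Y682.YR.Alg
import Pool.Agent.Y667.BKP.Main
import Pool.Agent.V11291.JH.Deg
import Pool.Agent.V11291.JH.Chain

/-!
# Abel–Jacobi maps onto Bloch–Kato Selmer groups over multiquadratic extensions of the layers of the
# cyclotomic `ℤ₃`-extension: the exact proportion, and infinite towers

`E` is the modular curve `X_0(14)`, an elliptic curve without complex multiplication which has one
rational point of order two.  We consider finite sets `S` of squarefree integers, positive or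
negative, `1` modulo `4`, squares modulo `7`, whose prime divisors split completely in
`ℚ(i, √2, √-7)` or are inert in `ℚ(√2)` and in `ℚ(√-7)`, and are inert in the cyclotomic
`ℤ₃`-extension of `ℚ`.  `S` is a good set if its elements are independent modulo squares and, for each
of the `2^#S` products of its elements, a matrix over `𝔽₂` of quadratic symbols of the primes that
divide the squarefree part of the product is nonsingular.

If `S` is good then, for all the layers `K` of the cyclotomic `ℤ₃`-extension of `ℚ` and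
`F = K(√d : d ∈ S)`, a field of degree `2^#S [K : ℚ]`, the groups `E(F) ⊗ ℚ₂` and `H¹_f(F, V₂ E)` are
zero: the 2-adic Abel–Jacobi (Kummer) map of `E` over `F` is an isomorphism, Q1 for `i = 0`, `p = 2`,
`X = E` over `F`; and `L(E/F, s)` is entire and does not vanish at `s = 1`.

For each good set `S` and each sign, the `D` of the class of this sign such that `S ∪ {D}` is good
have the proportion exactly `c^(2^#S)`, `c = ∏_{i ≥ 0} (1 - 2^{-(2 i + 1)})`.  Hence each good set is
the beginning of an infinite chain of good sets, with prescribed signs of the new elements.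

`H1f 2 W` (`Pool.Agent.Y667.BKP.H1f`, by helper667) is the group of the classes of the continuous
cocycles of the absolute Galois group with values in `V_2 W = T_2 W ⊗ ℚ_2` whose restriction to the
completion at every place is in the image of the Kummer map; this is the condition of Bloch and Kato.

The criterion for the rank and `Ш[2^∞]` over a field is in the file `LayersMultiquadratic` of problem
`MP_32c55d_nt`, the exact proportion for good sets in `LayersMultiquadraticLaw` of `MP_f50388_nt`.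
-/

set_option autoImplicit false

open NumberField IsDedekindDomain Filter Topology

namespace Pool.Agent.Results.MP_787500_nt.LayersBlochKatoLaw

open scoped Classical

open Pool.Agent.TH841.NF.D (Sha)

open Pool.Agent.Y667.BKP (H1f)

/-- `W` is an elliptic curve, and `W(F) ⊗ ℚ_2` and `H¹_f(F, V_2 W)` are zero; in particular, the
Kummer map from the first group to the second one is an isomorphism. -/
def BothZero {F : Type} [Field F] [NumberField F] (W : WeierstrassCurve F) : Prop :=
  W.IsElliptic ∧ (∀ x : TensorProduct ℤ W.toAffine.Point ℚ_[2], x = 0) ∧ ∀ x : H1f 2 W, x = 0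

/-- The elliptic curve `X_0(14)`, with its global minimal equation
`y² + x y + y = x³ + 4 x - 6`. -/
def E : WeierstrassCurve ℤ := ⟨1, 0, 1, 4, -6⟩

/-- The curve given by the equation of `W` over the ring `R`. -/
abbrev base (W : WeierstrassCurve ℤ) (R : Type) [CommRing R] : WeierstrassCurve R :=
  W.map (Int.castRingHom R)

/-- The number of the affine points `(x, y)` over the ring `R`. -/
noncomputable def pts (W : WeierstrassCurve ℤ) (R : Type) [CommRing R] : ℕ :=
  Nat.card {P : R × R // (base W R).toAffine.Equation P.1 P.2}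

section

variable {K : Type} [Field K] [NumberField K]

/-- `a_v = N v + 1 - #W(k_v)`, the points over the residue field `k_v` counted with the point at
infinity. -/
noncomputable def a (W : WeierstrassCurve ℤ) (v : HeightOneSpectrum (𝓞 K)) : ℤ :=
  (Ideal.absNorm v.asIdeal : ℤ) - pts W (𝓞 K ⧸ v.asIdeal)

/-- The Euler factor of `L(W/K, s)` at `v` : `(1 - a_v N v^(-s) + N v^(1 - 2 s))⁻¹` if the
discriminant is a unit at `v`, and `(1 - a_v N v^(-s))⁻¹` otherwise. -/
noncomputable def factor (W : WeierstrassCurve ℤ) (s : ℂ) (v : HeightOneSpectrum (𝓞 K)) : ℂ :=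
  (1 - (a W v : ℂ) * (Ideal.absNorm v.asIdeal : ℂ) ^ (-s) +
    if ((W.Δ : ℤ) : 𝓞 K) ∈ v.asIdeal then 0 else (Ideal.absNorm v.asIdeal : ℂ) ^ (1 - 2 * s))⁻¹

end

section

variable (K : Type) [Field K] [NumberField K]

/-- The rank of the group of the points over `K`. -/
noncomputable def rank (W : WeierstrassCurve ℤ) : ℕ := Module.finrank ℤ (base W K).toAffine.Point

end

/-- The quadratic twist `E_D` of `X_0(14)` (`D = 1` modulo `4`), with its global minimal equation
`y² + x y + y = x³ + ((D - 1)/4) x² + ((9 D² - 1)/2) x - (23 D³ + 1)/4`. -/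
def twist (D : ℤ) : WeierstrassCurve ℤ :=
  ⟨1, (D - 1) / 4, 1, (9 * D ^ 2 - 1) / 2, -((23 * D ^ 3 + 1) / 4)⟩

/-- The subfield of `ℂ` generated by the square roots of the elements of `S`. -/
noncomputable def multiquadratic (S : Finset ℤ) : IntermediateField ℚ ℂ :=
  IntermediateField.adjoin ℚ {z : ℂ | ∃ d ∈ S, z ^ 2 = (d : ℂ)}

/-- The subfield of `ℂ` generated by the `q`-th roots of unity. -/
noncomputable def cyclotomic (q : ℕ) : IntermediateField ℚ ℂ :=
  IntermediateField.adjoin ℚ {z : ℂ | z ^ q = 1}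

/-! ### The class of the discriminants -/

/-- primes which split completely in `ℚ(i, √2, √-7)` -/
def Split (p : ℕ) : Prop := p.Prime ∧ p % 8 = 1 ∧ (p % 7 = 1 ∨ p % 7 = 2 ∨ p % 7 = 4)

/-- primes inert in `ℚ(√2)` and in `ℚ(√-7)` -/
def Inert (q : ℕ) : Prop :=
  q.Prime ∧ (q % 8 = 3 ∨ q % 8 = 5) ∧ (q % 7 = 3 ∨ q % 7 = 5 ∨ q % 7 = 6)

/-- the class of discriminants; the condition modulo `9` means that the prime is inert in all the
layers of the cyclotomic `ℤ₃`-extension of `ℚ` -/
def Adm (D : ℤ) : Prop := Squarefree D ∧ D % 4 = 1 ∧ (D % 7 = 1 ∨ D % 7 = 2 ∨ D % 7 = 4) ∧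
  ∀ p : ℕ, p.Prime → (p : ℤ) ∣ D →
    (Split p ∨ Inert p) ∧ (p % 9 = 2 ∨ p % 9 = 4 ∨ p % 9 = 5 ∨ p % 9 = 7)

/-- the prime factors `≡ 1 mod 8` of `D` -/
def P1 (D : ℤ) : Finset ℕ := D.natAbs.primeFactors.filter fun p => p % 8 = 1

/-- the matrix over `𝔽₂` with rows and columns indexed by `P1 D`: off the diagonal the
entry at `(p, p')` is `1` if `p'` is not a square modulo `p` and `0` otherwise; on the diagonal it
is the number of the prime factors of `D` different from `p` which are not squares modulo `p`, plus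
`1` if the number of the points of `X_0(14)` modulo `p` is not divisible by `8` -/
noncomputable def R (D : ℤ) : Matrix (P1 D) (P1 D) (ZMod 2) := Matrix.of fun i j =>
  if i = j then
    (((D.natAbs.primeFactors.filter fun r : ℕ => r ≠ (i : ℕ) ∧
      ¬ IsSquare (r : ZMod (i : ℕ))).card : ZMod 2) +
        if 8 ∣ pts E (ZMod (i : ℕ)) + 1 then 0 else 1)
  else if IsSquare (((j : ℕ)) : ZMod (i : ℕ)) then 0 else 1

/-- The good sets: the elements are in the class, they are independent modulo squares, and for each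
of the `2^#S` products the matrix of its squarefree part `D` is nonsingular. -/
def Good (S : Finset ℤ) : Prop := (∀ d ∈ S, Adm d) ∧
  (∀ T ⊆ S, T.Nonempty → ¬ IsSquare (∏ d ∈ T, d)) ∧
  ∀ T ⊆ S, ∀ D k : ℤ, Adm D → ∏ d ∈ T, d = D * k ^ 2 → (R D).det ≠ 0

/-- `E(F) ⊗ ℚ_2` and `H¹_f(F, V_2 E)` are zero, and `L(E/F, s)` is entire and not zero at
`s = 1`. -/
def Holds (F : Type) [Field F] [NumberField F] : Prop :=
  BothZero (base E F) ∧ ∃ L : ℂ → ℂ, Differentiable ℂ L ∧
    (∀ s : ℂ, 3 / 2 < s.re → HasProd (factor (K := F) E s) (L s)) ∧ L 1 ≠ 0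

/-- The degree of `F` is `2^n` times the degree of `K`. -/
def Degree (K F : Type) [Field K] [NumberField K] [Field F] [NumberField F] (n : ℕ) : Prop :=
  Module.finrank ℚ F = 2 ^ n * Module.finrank ℚ K

/-- `Holds F` for `F = K(√d : d ∈ S)`, a field of degree `2^#S [K : ℚ]`, and all the layers `K` of the
cyclotomic `ℤ₃`-extension of `ℚ` (`K` is a subfield of odd degree of a `3 ^ (m + 1)`-th cyclotomic
field). -/
def AllLayers (S : Finset ℤ) : Prop :=
  ∀ (m : ℕ) (K F : IntermediateField ℚ ℂ) [NumberField K] [NumberField F],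
    K ≤ cyclotomic (3 ^ (m + 1)) → Odd (Module.finrank ℚ K) → F = multiquadratic S ⊔ K →
    Degree K F S.card ∧ Holds F

/-- The rank of `E_D(K)` is zero and `Ш(E_D/K)[2] = 0`. -/
def SmallOver (K : Type) [Field K] [NumberField K] (D : ℤ) : Prop :=
  rank K (twist D) = 0 ∧ ∀ x : Sha (base (twist D) K), 2 • x = 0 → x = 0

/-- `SmallOver K D` for all the layers `K` of the cyclotomic `ℤ₃`-extension of `ℚ`. -/
def Small (D : ℤ) : Prop := ∀ (n : ℕ) (M : Type) [Field M] [NumberField M]
  [IsCyclotomicExtension {3 ^ (n + 1)} ℚ M] (K : IntermediateField ℚ M),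
  Odd (Module.finrank ℚ K) → SmallOver K D

/-- For the squarefree parts `D'` of the `2^#S` products of elements of `S` and for all the layers `K`,
`E_{D'}(K) ⊗ ℚ_2` and `H¹_f(K, V_2 E_{D'})` are zero. -/
def AllTwists (S : Finset ℤ) : Prop :=
  ∀ T ⊆ S, ∀ D' k : ℤ, Adm D' → ∏ d ∈ T, d = D' * k ^ 2 →
    ∀ (n : ℕ) (M : Type) [Field M] [NumberField M] [IsCyclotomicExtension {3 ^ (n + 1)} ℚ M]
      (K : IntermediateField ℚ M), Odd (Module.finrank ℚ K) → BothZero (base (twist D') K)

/-- the number of the integers `D` with `|D| ≤ X` and `Q D` -/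
noncomputable def count (Q : ℤ → Prop) (X : ℕ) : ℕ := Nat.card {D : ℤ // |D| ≤ X ∧ Q D}

/-- `c = ∏_{i ≥ 0} (1 - 2^{-(2 i + 1)})` -/
noncomputable def cc : ℝ := ∏' i : ℕ, (1 - (1 / 2 : ℝ) ^ (2 * i + 1))

/-- the `D` with `Q D` have the proportion `c` among the `D` of the class of the sign of `s`, ordered
by absolute value -/
def Proportion (Q : ℤ → Prop) (s : ℤ) (c : ℝ) : Prop :=
  Tendsto (fun X : ℕ => (count (fun D => Adm D ∧ 0 < s * D ∧ Q D) X : ℝ) /
    (count (fun D => Adm D ∧ 0 < s * D) X : ℝ)) atTop (𝓝 c)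

/-- the number of the `D` of the class of the sign of `s` with `|D| ≤ X` is at least a positive
constant times `X (log X)^(-3/4)` -/
def Many (s : ℤ) : Prop := ∃ (a : ℝ) (X₀ : ℕ), 0 < a ∧ ∀ X : ℕ, X₀ ≤ X →
  a * X * (Real.log X) ^ (-(3 / 4) : ℝ) ≤ (count (fun D => Adm D ∧ 0 < s * D) X : ℝ)

lemma E_disc : E.Δ = -21952 := by
  unfold E WeierstrassCurve.Δ WeierstrassCurve.b₂ WeierstrassCurve.b₄ WeierstrassCurve.b₆
    WeierstrassCurve.b₈
  norm_num

lemma disc_mem {K : Type} [Field K] [NumberField K] (v : HeightOneSpectrum (𝓞 K)) :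
    ((E.Δ : ℤ) : 𝓞 K) ∈ v.asIdeal ↔ ((14 : ℤ) : 𝓞 K) ∈ v.asIdeal := by
  have h2 : ((E.Δ : ℤ) : 𝓞 K) = -(((14 : ℤ) : 𝓞 K) ^ 3 * 8) := by
    rw [E_disc]; push_cast; norm_num
  have h3 : ((14 : ℤ) : 𝓞 K) = 2 * 7 := by push_cast; norm_num
  rw [h2, neg_mem_iff]
  constructor
  · intro h
    rcases v.isPrime.mem_or_mem h with h | h
    · exact v.isPrime.mem_of_pow_mem 3 h
    · rw [show (8 : 𝓞 K) = 2 ^ 3 by norm_num] at h
      rw [h3]
      exact Ideal.mul_mem_right _ _ (v.isPrime.mem_of_pow_mem 3 h)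
  · intro h
    exact Ideal.mul_mem_right _ _ (Ideal.pow_mem_of_mem _ h 3 (by norm_num))

lemma factor_eq {K : Type} [Field K] [NumberField K] (s : ℂ) :
    factor (K := K) E s = Pool.Agent.Y682.XT.fE (K := K) s := by
  funext v
  have h1 : a E v = Pool.Agent.Y682.XT.av v := rfl
  unfold factor Pool.Agent.Y682.XT.fE
  rw [h1]
  simp only [disc_mem]

lemma rank_eq (F : Type) [Field F] [NumberField F] : rank F E = Pool.Agent.Y682.XD.RR F 1 := by
  rw [← Pool.Agent.Y682.XD.rank_E F]
  rfl

lemma adm_iff (D : ℤ) : Adm D ↔ (Pool.Agent.Y687.MQ.AdmD D ∧ Pool.Agent.Y682.YQ.H9 D) := by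
  constructor
  · rintro ⟨h1, h2, h3, h4⟩
    refine ⟨⟨h1, h2, h3, fun p hp hd => ⟨?_, (h4 p hp hd).1⟩⟩, fun p hp hd => (h4 p hp hd).2⟩
    rintro rfl
    have := (h4 3 hp hd).2
    omega
  · rintro ⟨⟨h1, h2, h3, h4⟩, h5⟩
    exact ⟨h1, h2, h3, fun p hp hd => ⟨(h4 p hp hd).2, h5 p hp hd⟩⟩

lemma mat_eq (D : ℤ) (hD : Adm D) : R D = Pool.Agent.Y687.MQ.matD D := by
  have hS := (Pool.Agent.Y687.MQ.of_admD ((adm_iff D).1 hD).1).1
  unfold R Pool.Agent.Y687.MQ.matD
  ext i j
  simp only [Matrix.of_apply]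
  have hi := hS i.1 i.2
  have h8 := hi.2.1
  have h7 := hi.2.2
  have e : pts E (ZMod (i : ℕ)) + 1 = Pool.Agent.Y687.NN 1 (i : ℕ) := by
    have h1 := Pool.Agent.Z705.cnt_affCountZ (D := 1) hi.1 (by omega) (by omega) (by norm_num) (by
      intro h
      rw [Int.natAbs_one, Nat.dvd_one] at h
      exact hi.1.one_lt.ne' h)
    unfold Pool.Agent.Y687.NN
    rw [Nat.cast_one, h1]
    rfl
  rw [e]
  rfl

lemma good_iff (S : Finset ℤ) : Good S ↔ Pool.Agent.V11291.JH.Fm S := by
  have key : ∀ (T : Finset ℤ), (∀ d ∈ T, Adm d) → ∀ D k : ℤ, Pool.Agent.Y687.MQ.AdmD D →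
      ∏ d ∈ T, d = D * k ^ 2 → Adm D := by
    intro T hT D k hD h
    refine (adm_iff D).2 ⟨hD, fun p hp hpd => ?_⟩
    have h1 : (p : ℤ) ∣ ∏ d ∈ T, d := by
      rw [h]
      exact Dvd.dvd.mul_right hpd _
    obtain ⟨d, hd, hd'⟩ := (Nat.prime_iff_prime_int.1 hp).exists_mem_finset_dvd h1
    exact ((adm_iff d).1 (hT d hd)).2 p hp hd'
  constructor
  · rintro ⟨h1, h2, h3⟩
    refine ⟨fun d hd => (adm_iff d).1 (h1 d hd), h2, fun T hT D k h4 h5 => ?_⟩
    have h6 := key T (fun d hd => h1 d (hT hd)) D k h4 h5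
    have h7 := h3 T hT D k h6 h5
    rwa [mat_eq D h6] at h7
  · rintro ⟨h1, h2, h3⟩
    refine ⟨fun d hd => (adm_iff d).2 (h1 d hd), h2, fun T hT D k h4 h5 => ?_⟩
    rw [mat_eq D h4]
    exact h3 T hT D k ((adm_iff D).1 h4).1 h5

lemma both_zero (F : Type) [Field F] [NumberField F] (W : WeierstrassCurve ℤ) (hW : W.Δ ≠ 0)
    (hr : rank F W = 0) (m : ℕ)
    (hS : ∀ (k : ℕ) (x : Sha (base W F)), 2 ^ k • x = 0 → 2 ^ m • x = 0) :
    BothZero (base W F) := by
  have h1 : Module.Finite ℤ (base W F).toAffine.Point := Pool.Agent.Y682.YR.fgK hW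
  have h2 : Finite (base W F).toAffine.Point :=
    Module.finite_of_fg_torsion _ (Module.finrank_eq_zero_iff_isTorsion.1 hr)
  have h3 : (base W F).Δ ≠ 0 := by
    rw [WeierstrassCurve.map_Δ]
    simpa using hW
  exact ⟨⟨isUnit_iff_ne_zero.2 h3⟩, Pool.Agent.Y667.BKP.tensor_zero 2,
    Pool.Agent.Y667.BKP.h1f_zero Nat.prime_two h2 m hS⟩

lemma good_all (S : Finset ℤ) (h : Good S) : AllLayers S := by
  obtain ⟨hA, hI, hP⟩ := h
  obtain ⟨e, -⟩ : ∃ e : Fin S.card ≃ S, True := ⟨S.equivFin.symm, trivial⟩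
  obtain ⟨d, hd⟩ : ∃ d : Fin S.card → ℤ, d = fun i => ((e i : S) : ℤ) := ⟨_, rfl⟩
  have hdi : ∀ i, d i = ((e i : S) : ℤ) := fun i => by rw [hd]
  have hdS : ∀ i, d i ∈ S := fun i => by rw [hdi]; exact (e i).2
  have hinj : Function.Injective d := by
    intro i j hij
    rw [hdi, hdi] at hij
    exact e.injective (Subtype.ext hij)
  have hprod : ∀ T : Finset (Fin S.card), ∏ i ∈ T, d i = ∏ x ∈ T.image d, x := by
    intro T
    rw [Finset.prod_image fun i _ j _ h => hinj h]
  have himg : ∀ T : Finset (Fin S.card), T.image d ⊆ S := by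
    intro T x hx
    obtain ⟨i, -, rfl⟩ := Finset.mem_image.1 hx
    exact hdS i
  have hI' : ∀ T : Finset (Fin S.card), T.Nonempty → ¬ IsSquare (∏ i ∈ T, d i) := by
    intro T hT
    rw [hprod]
    exact hI _ (himg T) (hT.image d)
  have hg : Pool.Agent.Y687.MQ.AdT Pool.Agent.Y687.MQ.ClG 1 d := by
    intro T
    obtain ⟨C, k, h1, h2, h3, h4, -⟩ := Pool.Agent.Y682.YS.prodD d
      (fun i => ((adm_iff _).1 (hA _ (hdS i))).1) (fun i => ((adm_iff _).1 (hA _ (hdS i))).2) T
    have hC : Adm C := (adm_iff C).2 ⟨h1, h2⟩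
    have h5 := hP (T.image d) (himg T) C k hC (by rw [← hprod]; exact h4)
    rw [mat_eq C hC] at h5
    obtain ⟨P, T', h6, h7⟩ := Pool.Agent.Y687.MQ.good_iff.1 ⟨h1, h5⟩
    exact ⟨P, T', k, h6, h3, by rw [one_mul, h4, h7]⟩
  have hd0 : ∀ i, d i ≠ 0 := fun i h => by
    have := (hA _ (hdS i)).2.1
    rw [h] at this
    norm_num at this
  have hmq : multiquadratic S = IntermediateField.adjoin ℚ {z : ℂ | ∃ i, z ^ 2 = (d i : ℂ)} := by
    unfold multiquadratic
    congr 1
    ext z
    constructor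
    · rintro ⟨x, hx, hz⟩
      obtain ⟨i, hi⟩ := e.surjective ⟨x, hx⟩
      refine ⟨i, ?_⟩
      rw [hz, hdi, hi]
    · rintro ⟨i, hz⟩
      exact ⟨d i, hdS i, hz⟩
  intro m K F _ _ hK hodd hF
  have hle : multiquadratic S ≤ F := by rw [hF]; exact le_sup_left
  have hfd : FiniteDimensional ℚ (multiquadratic S) :=
    FiniteDimensional.of_injective (IntermediateField.inclusion hle).toLinearMap
      (IntermediateField.inclusion_injective hle)
  have hnf : NumberField (multiquadratic S) := by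
    refine @NumberField.mk _ _ inferInstance ?_
    convert hfd
  have hdeg := Pool.Agent.V11291.JH.finrank_sup d hd0 hI' (multiquadratic S) K F hodd hmq hF
  obtain ⟨-, L, -, h1, -, h2, -, h3, -, h4⟩ := Pool.Agent.Y682.YS.main d
    (fun i => ((adm_iff _).1 (hA _ (hdS i))).1) (fun i => ((adm_iff _).1 (hA _ (hdS i))).2) hI' hg m K
    hK hodd (multiquadratic S) F hmq hF
  obtain ⟨h5, h6⟩ := Pool.Agent.Y682.YS.sha_C d (fun i => ((adm_iff _).1 (hA _ (hdS i))).2) hd0 hg m K
    hK hodd (multiquadratic S) F hmq hF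
  have hr : rank F E = 0 := by rw [rank_eq, h4]
  exact ⟨hdeg, both_zero F E (by rw [E_disc]; norm_num) hr S.card h6, L, h1, fun s hs => by
    rw [factor_eq]
    exact h2 s hs, h3⟩

lemma small_iff (D : ℤ) (hD : Adm D) : Small D ↔ (R D).det ≠ 0 := by
  have key := fun (n : ℕ) (M : Type) [Field M] [NumberField M]
      [IsCyclotomicExtension {3 ^ (n + 1)} ℚ M] (K : IntermediateField ℚ M)
      (hodd : Odd (Module.finrank ℚ K)) =>
    (Pool.Agent.Y682.YQ.layer ((adm_iff D).1 hD).1 ((adm_iff D).1 hD).2 n M K hodd).2.1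
  rw [mat_eq D hD]
  constructor
  · intro h
    have hz : NeZero (3 ^ (0 + 1)) := ⟨by norm_num⟩
    have hcyc : IsCyclotomicExtension {3 ^ (0 + 1)} ℚ (CyclotomicField (3 ^ (0 + 1)) ℚ) :=
      CyclotomicField.isCyclotomicExtension (3 ^ (0 + 1)) ℚ
    have hodd : Odd (Module.finrank ℚ (⊥ : IntermediateField ℚ (CyclotomicField (3 ^ (0 + 1)) ℚ))) := by
      rw [IntermediateField.finrank_bot]
      exact odd_one
    exact (key 0 (CyclotomicField (3 ^ (0 + 1)) ℚ) ⊥ hodd).1
      (h 0 (CyclotomicField (3 ^ (0 + 1)) ℚ) ⊥ hodd)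
  · intro h n M _ _ _ K hodd
    exact (key n M K hodd).2 h

lemma good_twists (S : Finset ℤ) (h : Good S) : AllTwists S := by
  intro T hT D' k hD he n M _ _ _ K hodd
  have h1 := (small_iff D' hD).2 (h.2.2 T hT D' k hD he) n M K hodd
  refine both_zero K (twist D') (Pool.Agent.Y682.YQ.wm_ne hD.2.1) h1.1 0 fun m => ?_
  induction m with
  | zero => exact fun x hx => hx
  | succ m ih =>
    intro x hx
    rw [pow_succ', mul_smul] at hx
    exact ih x (h1.2 _ hx)

/-- `D` is independent of `S` modulo squares. -/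
def Independent (S : Finset ℤ) (D : ℤ) : Prop := ∀ T ⊆ S, ¬ IsSquare (D * ∏ d ∈ T, d)

/-- For the squarefree parts `D'` of the products of `D` and the elements of a subset of `S`, and for all
the layers `K`, the rank of `E_{D'}(K)` is zero and `Ш(E_{D'}/K)[2] = 0`. -/
def Criterion (S : Finset ℤ) (D : ℤ) : Prop :=
  ∀ T ⊆ S, ∀ D' k : ℤ, Adm D' → D * ∏ d ∈ T, d = D' * k ^ 2 → Small D'

/-- For each sequence of signs there are different numbers `d_0, d_1, …` with these signs, not in `S`,
such that all the sets `S ∪ {d_0, …, d_{n-1}}` are good. -/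
def Chains (S : Finset ℤ) : Prop := ∀ σ : ℕ → ℤ, (∀ i, σ i = 1 ∨ σ i = -1) →
  ∃ d : ℕ → ℤ, (∀ i, 0 < σ i * d i) ∧ Function.Injective d ∧ (∀ i, d i ∉ S) ∧
    ∀ n, Good (S ∪ (Finset.range n).image d)

/-- **Main theorem.**
(1) If `S` is a good set then `AllLayers S` holds: for each layer `K` of the cyclotomic
`ℤ₃`-extension of `ℚ` and `F = K(√d : d ∈ S)`, `[F : ℚ] = 2^#S [K : ℚ]`, the groups `E(F) ⊗ ℚ_2` and
`H¹_f(F, V_2 E)` are zero, and `L(E/F, s)` is entire and not zero at `s = 1`; and `AllTwists S` holds: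
`E_{D'}(K) ⊗ ℚ_2` and `H¹_f(K, V_2 E_{D'})` are zero for the squarefree parts `D'` of the `2^#S`
products.
(2) The empty set is good.  If `S` is good and `D` is an element of the class which is independent of `S`
modulo squares, then `S ∪ {D}` is good if and only if for all the `2^#S` squarefree parts `D'` of the
products of `D` with the elements of a subset of `S` and for all the layers `K` the rank of `E_{D'}(K)` is
zero and `Ш(E_{D'}/K)[2] = 0`.
(3) For each good set `S`, the proportion of the `D` such that `S ∪ {D}` is a good set with `#S + 1`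
elements is exactly `c^(2^#S)`, among the positive `D` of the class, ordered by absolute value, and
also among the negative ones; `0.4194 < c < 0.4195`.  The number of the `D` of the class of a given sign
with `|D| ≤ X` is at least a positive constant times `X (log X)^(-3/4)`.
(4) Each good set `S` is the beginning of an infinite chain of good sets `S ∪ {d_0, …, d_{n-1}}`, where
the signs of the `d_i` can be prescribed. -/
theorem result :
    (∀ S : Finset ℤ, Good S → AllLayers S ∧ AllTwists S) ∧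
    (Good ∅ ∧ ∀ S : Finset ℤ, Good S → ∀ D : ℤ, Adm D → Independent S D →
      (Good (insert D S) ↔ Criterion S D)) ∧
    (∀ s : ℤ, (s = 1 ∨ s = -1) → Many s ∧ ∀ S : Finset ℤ, Good S →
      Proportion (fun D => D ∉ S ∧ Good (insert D S)) s (cc ^ (2 ^ S.card))) ∧
    (0.4194 < cc ∧ cc < 0.4195) ∧
    ∀ S : Finset ℤ, Good S → Chains S := by
  refine ⟨fun S hS => ⟨good_all S hS, good_twists S hS⟩, ⟨?_, fun S hS D hD hind => ?_⟩, fun s hs => ⟨?_, fun S hS => ?_⟩,
    Pool.Agent.Y948.CQ.t_C2.2.2.2, fun S hS σ hσ => ?_⟩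
  · refine ⟨fun d hd => absurd hd (Finset.notMem_empty d), fun T hT hne => ?_, fun T hT D k hD he => ?_⟩
    · rw [Finset.subset_empty] at hT
      rw [hT] at hne
      exact absurd hne Finset.not_nonempty_empty
    · rw [Finset.subset_empty] at hT
      rw [hT, Finset.prod_empty] at he
      have hS : IsEmpty (P1 D) := by
        constructor
        rintro ⟨p, hp⟩
        unfold P1 at hp
        rw [Finset.mem_filter, Nat.mem_primeFactors] at hp
        obtain ⟨⟨hp1, hp2, -⟩, -⟩ := hp
        have h1 : (p : ℤ) ∣ ((1 : ℕ) : ℤ) := by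
          rw [Nat.cast_one, he]
          exact Dvd.dvd.mul_right (Int.natCast_dvd.2 hp2) _
        rw [Int.natCast_dvd_natCast] at h1
        exact hp1.one_lt.ne' (Nat.dvd_one.1 h1)
      rw [Matrix.det_isEmpty]
      exact one_ne_zero
  · have hDS : D ∉ S := fun hm => hind {D} (Finset.singleton_subset_iff.2 hm)
      (by rw [Finset.prod_singleton]; exact ⟨D, rfl⟩)
    constructor
    · intro h T hT D' k h1 h2
      rw [small_iff D' h1]
      refine h.2.2 (insert D T) (Finset.insert_subset_insert D hT) D' k h1 ?_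
      rw [Finset.prod_insert fun h' => hDS (hT h')]
      exact h2
    · intro h
      refine ⟨fun d hd => ?_, fun T hT hne => ?_, fun T hT D' k h1 h2 => ?_⟩
      · rcases Finset.mem_insert.1 hd with rfl | hd
        · exact hD
        · exact hS.1 d hd
      · by_cases hm : D ∈ T
        · have h3 : T.erase D ⊆ S := by
            intro x hx
            rw [Finset.mem_erase] at hx
            exact (Finset.mem_insert.1 (hT hx.2)).resolve_left hx.1
          rw [← Finset.mul_prod_erase T (fun d => d) hm]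
          exact hind _ h3
        · refine hS.2.1 T (fun x hx => (Finset.mem_insert.1 (hT hx)).resolve_left ?_) hne
          rintro rfl
          exact hm hx
      · by_cases hm : D ∈ T
        · have h3 : T.erase D ⊆ S := by
            intro x hx
            rw [Finset.mem_erase] at hx
            exact (Finset.mem_insert.1 (hT hx.2)).resolve_left hx.1
          rw [← Finset.mul_prod_erase T (fun d => d) hm] at h2
          exact (small_iff D' h1).1 (h _ h3 D' k h1 h2)
        · refine hS.2.2 T (fun x hx => (Finset.mem_insert.1 (hT hx)).resolve_left ?_) D' k h1 h2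
          rintro rfl
          exact hm hx
  · obtain ⟨a, X₀, ha, h⟩ := Pool.Agent.Y682.YQ.low9 hs
    refine ⟨a, X₀, ha, fun X hX => ?_⟩
    have e2 : Pool.Agent.Y682.YQ.CA.count (fun D => Pool.Agent.Y687.MQ.AdmD D ∧ 0 < s * D ∧
        Pool.Agent.Y682.YQ.H9 D) X = count (fun D => Adm D ∧ 0 < s * D) X := by
      unfold Pool.Agent.Y682.YQ.CA.count count
      refine Nat.card_congr (Equiv.subtypeEquivRight fun D => ?_)
      show (|D| ≤ (X : ℤ) ∧ (Pool.Agent.Y687.MQ.AdmD D ∧ 0 < s * D ∧ Pool.Agent.Y682.YQ.H9 D)) ↔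
        (|D| ≤ (X : ℤ) ∧ (Adm D ∧ 0 < s * D))
      rw [adm_iff D]
      tauto
    rw [← e2]
    exact h X hX
  · have h := Pool.Agent.V11291.JH.prop_fam hs ((good_iff S).1 hS)
    refine h.congr fun X => ?_
    have e1 : Pool.Agent.Y682.YQ.CA.count (fun D => Pool.Agent.Y687.MQ.AdmD D ∧ 0 < s * D ∧
        (Pool.Agent.Y682.YQ.H9 D ∧ (D ∉ S ∧ Pool.Agent.V11291.JH.Fm (insert D S)))) X =
        count (fun D => Adm D ∧ 0 < s * D ∧ (D ∉ S ∧ Good (insert D S))) X := by
      unfold Pool.Agent.Y682.YQ.CA.count count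
      refine Nat.card_congr (Equiv.subtypeEquivRight fun D => ?_)
      show (|D| ≤ (X : ℤ) ∧ (Pool.Agent.Y687.MQ.AdmD D ∧ 0 < s * D ∧
        (Pool.Agent.Y682.YQ.H9 D ∧ (D ∉ S ∧ Pool.Agent.V11291.JH.Fm (insert D S))))) ↔
          (|D| ≤ (X : ℤ) ∧ (Adm D ∧ 0 < s * D ∧ (D ∉ S ∧ Good (insert D S))))
      rw [adm_iff D, good_iff (insert D S)]
      tauto
    have e2 : Pool.Agent.Y682.YQ.CA.count (fun D => Pool.Agent.Y687.MQ.AdmD D ∧ 0 < s * D ∧
        Pool.Agent.Y682.YQ.H9 D) X = count (fun D => Adm D ∧ 0 < s * D) X := by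
      unfold Pool.Agent.Y682.YQ.CA.count count
      refine Nat.card_congr (Equiv.subtypeEquivRight fun D => ?_)
      show (|D| ≤ (X : ℤ) ∧ (Pool.Agent.Y687.MQ.AdmD D ∧ 0 < s * D ∧ Pool.Agent.Y682.YQ.H9 D)) ↔
        (|D| ≤ (X : ℤ) ∧ (Adm D ∧ 0 < s * D))
      rw [adm_iff D]
      tauto
    rw [e1, e2]
  · obtain ⟨d, h1, h2, h3, h4⟩ := Pool.Agent.V11291.JH.chain ((good_iff S).1 hS) σ hσ
    exact ⟨d, h1, h2, h3, fun n => (good_iff _).2 (h4 n)⟩

end Pool.Agent.Results.MP_787500_nt.LayersBlochKatoLaw
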