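import Pool.Agent.Y682.StabH
import Pool.Agent.Y682.YQ.Inr
import Pool.Agent.Y682.XD.Fin
import Pool.Agent.Y419.XD.Ram
import Pool.Agent.V11329.KI.EC
import Pool.Agent.V11329.KI.QuadB

/-!
# The conjecture of Bloch and Kato for the Abel–Jacobi map, for elliptic curves of any rank over the
# layers of the cyclotomic `ℤ₃`-extension and over their multiquadratic extensions

The case `i = 0`, `p = 2`: `X` is an elliptic curve `E` and the Abel–Jacobi map is the Kummer map
`E(F) ⊗ ℚ₂ → H¹_f(F, V₂ E)`.  The statement `BlochKato F E` is that this map is an isomorphism.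

Let `E : y² = x³ + A x² + B x` be a curve over `ℚ` whose isogeny with kernel `(0, 0)` has opposite types
at `∞` and at `2`, such that `Ш(E/ℚ)[2^∞]` is finite (the rank is arbitrary; for example the analytic
rank is at most one).  Then `BlochKato K E` and `rank E(K) = rank E(ℚ)` for the totally real fields `K`
of odd degree and odd narrow class number in which `2` is inert and that satisfy a condition at the bad
primes; and for all the layers `K` of the cyclotomic `ℤ₃`-extension of `ℚ` at once if the bad primes are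
`3` or `2, 4, 5, 7` modulo `9`.  More generally `BlochKato F E` holds for `F = K(√d_1, …, √d_n)`, if the
hypotheses over `ℚ` hold for the `2^n` twists of `E` by the products of the `d_i`.  For the curves of
rank zero see `BlochKatoMultiquadratic`, `BlochKatoCubicTwists` and `LayersBlochKatoLaw` (helper291).

The theorem on the Kummer map (`Pool.Agent.V11329.KI.kummer2`) is proved for an arbitrary elliptic curve
over a number field with a bound for the orders of the elements of `Ш[2^∞]`.  The descent from `K` to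
`ℚ` is the theorem `Pool.Agent.Y682.stabH` (helper682 and the seats named there) used in
`TwoTorsionStability` of problem `MP_78d38b_nt`.
-/

set_option autoImplicit false

open NumberField IsDedekindDomain

namespace Pool.Agent.Results.MP_787500_nt.BlochKatoAnyRank

open scoped Classical

open Pool.Agent.TH841.NF.D (Sha)

open Pool.Agent.Y682 (NCl)

open Pool.Agent.V11329.KI (Fix ZV HV IsKum gal shaF)

/-- The curve given by the equation of `W` over the ring `R`. -/
abbrev base (W : WeierstrassCurve ℤ) (R : Type) [CommRing R] : WeierstrassCurve R :=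
  W.map (Int.castRingHom R)

/-! ### The Kummer map

Here `G` acts on the abelian group `A` by `s`, and `S` is a group of cocycles of `G` with values in `A`.
`Fix s` is the group of the fixed points.  `ZV 2 S` is the group of the cocycles with values in the
rational Tate module `V₂ A` whose coordinates are in `S`; the elements of `V₂ A` are the sequences
`x₀, x₁, …` of elements of 2-power order of `A` with `2 x_{n+1} = x_n`. -/

section kummer

variable {G A : Type} [AddCommGroup A]

/-- The group `A^G ⊗ ℚ₂`. -/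
def Dom (s : G → A →+ A) : Type := TensorProduct ℤ (Fix s) ℚ_[2]

/-- its group structure -/
noncomputable instance (s : G → A →+ A) : AddCommGroup (Dom s) :=
  @TensorProduct.addCommGroup ℤ _ (Fix s) ℚ_[2] _ _ _ _

/-- The element `P ⊗ α` of `A^G ⊗ ℚ₂`. -/
noncomputable def tens (s : G → A →+ A) (P : A) (hP : P ∈ Fix s) (α : ℚ_[2]) : Dom s :=
  TensorProduct.tmul ℤ (⟨P, hP⟩ : Fix s) α

/-- The cohomology group of the cocycles with values in `V₂ A` whose coordinates are in `S`, modulo the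
coboundaries of the elements of `V₂ A`. -/
def H1 (s : G → A →+ A) (S : AddSubgroup (G → A)) : Type := HV 2 s S

/-- its group structure -/
instance (s : G → A →+ A) (S : AddSubgroup (G → A)) : AddCommGroup (H1 s S) :=
  @QuotientAddGroup.Quotient.addCommGroup (ZV 2 S) _ _

/-- The class of a cocycle. -/
def cls (s : G → A →+ A) (S : AddSubgroup (G → A)) (c : ZV 2 S) : H1 s S := QuotientAddGroup.mk c

/-- The Kummer map `A^G ⊗ ℚ₂ → H¹` is an isomorphism.  `IsKum s P α c` means that the cocycle `c` is the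
product of `α` and of the Kummer cocycle `σ ↦ (σ Q_n - Q_n)_n` for some choice of the points
`Q₀ = P`, `2 Q_{n+1} = Q_n`: such cocycles exist, and the isomorphism maps `P ⊗ α` to their class. -/
def KumIso (s : G → A →+ A) (S : AddSubgroup (G → A)) : Prop :=
  (∀ P ∈ Fix s, ∀ α : ℚ_[2], ∃ c ∈ ZV 2 S, IsKum s P α c) ∧
    ∃ Φ : Dom s ≃+ H1 s S, ∀ (P : A) (hP : P ∈ Fix s) (α : ℚ_[2]) (c : ZV 2 S),
      IsKum s P α c.1 → Φ (tens s P hP α) = cls s S c

end kummer

/-- `W` is an elliptic curve over `F`, and the Kummer map `W(F) ⊗ ℚ₂ → H¹_f(F, V₂ W)` is an isomorphism.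
Here `W(F)` is the group of the points over the algebraic closure which are fixed by the absolute Galois
group of `F`, and `H¹_f(F, V₂ W)` is the group of the classes of the cocycles with values in `V₂ W` all
the coordinates of which are locally constant, and become coboundaries with values in `W(F̄_v)` over the
completion at each place `v` of `F` (these are the elements of `shaF`). -/
def BlochKato (F : Type) [Field F] [NumberField F] (W : WeierstrassCurve ℤ) : Prop :=
  (base W F).IsElliptic ∧ KumIso (gal (base W F)) (shaF (base W F))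

/-! ### Curves with a rational point of order two -/

/-- The curve `E : y² = x³ + A x² + B x`. -/
def crv (A B : ℤ) : WeierstrassCurve ℤ := ⟨0, A, 0, B, 0⟩

/-- `A`, `B` are the coefficients of a curve `E : y² = x³ + A x² + B x`, not both `4 ∣ A` and
`16 ∣ B`, with opposite types of the isogeny by `(0, 0)` at `∞` and at `2` : `B > 0` and
(`A < 0` or `A² < 4B`) holds if and only if `A` is odd or `4` does not divide `(A/2)² - B`. -/
def Pair (A B : ℤ) : Prop := B ≠ 0 ∧ A ^ 2 ≠ 4 * B ∧ ¬ (4 ∣ A ∧ 16 ∣ B) ∧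
  ((0 < B ∧ (A < 0 ∨ A ^ 2 < 4 * B)) ↔ (¬ 2 ∣ A ∨ ¬ 4 ∣ (A / 2) ^ 2 - B))

/-- The exceptional case at `2`: `A = 3 mod 4` and `B = 2` or `3 mod 4`, or `A = 2 mod 8` and
`(A/2)² - B = 8, 9, …, 15 mod 16`. -/
def Exc (A B : ℤ) : Prop := (A % 4 = 3 ∧ 2 ≤ B % 4) ∨ (A % 8 = 2 ∧ 8 ≤ ((A / 2) ^ 2 - B) % 16)

/-- The condition on `K` at a bad prime `p`: there is only one prime of `K` above `p`, or `p` is odd
and there are integers `d ≠ 0`, `α`, `β` with `A = d α`, `B = d² β` such that `β` and `α² - 4 β` are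
not squares modulo any prime of `K` above `p`. -/
def AtBad (K : Type) [Field K] [NumberField K] (A B : ℤ) (p : ℕ) : Prop :=
  (∀ v w : HeightOneSpectrum (𝓞 K), (p : 𝓞 K) ∈ v.asIdeal → (p : 𝓞 K) ∈ w.asIdeal → v = w) ∨
  (p ≠ 2 ∧ ∃ d α β : ℤ, d ≠ 0 ∧ A = d * α ∧ B = d ^ 2 * β ∧
    ∀ v : HeightOneSpectrum (𝓞 K), (p : 𝓞 K) ∈ v.asIdeal → ∀ x : 𝓞 K,
      x ^ 2 - (β : 𝓞 K) ∉ v.asIdeal ∧ x ^ 2 - ((α ^ 2 - 4 * β : ℤ) : 𝓞 K) ∉ v.asIdeal)

/-- The 2-primary part of `Ш(E/ℚ)` is finite, `E : y² = x³ + A x² + B x`. -/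
def FinSha (A B : ℤ) : Prop := Finite (AddCommGroup.primaryComponent
    (Pool.Agent.TH841.SH.D.Sha (⟨0, A, 0, B, 0⟩ : WeierstrassCurve ℚ)) 2)

/-- `rank E(K) = rank E(ℚ)`, `E : y² = x³ + A x² + B x`. -/
def SameRank (K : Type) [Field K] [NumberField K] (A B : ℤ) : Prop :=
  Pool.Agent.TH841.NF.D.rk (⟨0, A, 0, B, 0⟩ : WeierstrassCurve K) =
    Pool.Agent.TH841.SH.D.rk (⟨0, A, 0, B, 0⟩ : WeierstrassCurve ℚ)

/-- `F` is generated over `K` by square roots of the integers `d_1, …, d_n`. -/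
def GenBy (K F : Type) [Field K] [Field F] [Algebra K F] {n : ℕ} (d : Fin n → ℤ) : Prop :=
  ∃ x : Fin n → F, (∀ i, x i ^ 2 = (d i : F)) ∧ IntermediateField.adjoin K (Set.range x) = ⊤

/-- `P` holds for the coefficients of all the twists `E_z : y² = x³ + A z x² + B z² x` by the products
`z = ∏_{i ∈ T} d_i`. -/
def Twists (P : ℤ → ℤ → Prop) (A B : ℤ) {n : ℕ} (d : Fin n → ℤ) : Prop :=
  ∀ T : Finset (Fin n), P (A * ∏ i ∈ T, d i) (B * (∏ i ∈ T, d i) ^ 2)

/-- The condition on the field `K` and the curve: `AtBad` holds for the prime factors of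
`B (A² - 4B)`; and if `3` divides the degree of `K` then the pair is not exceptional at `2`. -/
def CondK (K : Type) [Field K] [NumberField K] (A B : ℤ) : Prop :=
  (3 ∣ Module.finrank ℚ K → ¬ Exc A B) ∧
    ∀ p : ℕ, p.Prime → (p : ℤ) ∣ B * (A ^ 2 - 4 * B) → AtBad K A B p

/-- The condition on the curve if `K` is a layer of the cyclotomic `ℤ₃`-extension of `ℚ`: the pair is not
exceptional at `2`, and each prime factor of `B (A² - 4B)` is `3` or `2, 4, 5, 7` modulo `9`, or
satisfies `AtBad`. -/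
def CondL (K : Type) [Field K] [NumberField K] (A B : ℤ) : Prop :=
  ¬ Exc A B ∧ ∀ p : ℕ, p.Prime → (p : ℤ) ∣ B * (A ^ 2 - 4 * B) →
    p = 3 ∨ p % 9 = 2 ∨ p % 9 = 4 ∨ p % 9 = 5 ∨ p % 9 = 7 ∨ AtBad K A B p

/-- The conclusion for the field `K`: the ranks of the twists of `E : y² = x³ + A x² + B x`
by the products of the `d_i` do not change from `ℚ` to `K`, and `BlochKato F E` holds for the extensions
`F = K(√d_1, …, √d_n)`. -/
def Tower (K : Type) [Field K] [NumberField K] (A B : ℤ) {n : ℕ} (d : Fin n → ℤ) : Prop :=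
  Twists (SameRank K) A B d ∧ ∀ (F : Type) [Field F] [NumberField F] [Algebra K F], GenBy K F d → BlochKato F (crv A B)

/-! ### Proofs -/

lemma elliptic {W : WeierstrassCurve ℤ} (hW : W.Δ ≠ 0) (F : Type) [Field F] [NumberField F] :
    (base W F).IsElliptic := by
  constructor
  rw [WeierstrassCurve.map_Δ, isUnit_iff_ne_zero]
  simpa using hW

lemma disc_ne {W : WeierstrassCurve ℤ} (hW : W.Δ ≠ 0) (F : Type) [Field F] [NumberField F] :
    (base W F).Δ ≠ 0 := by
  rw [WeierstrassCurve.map_Δ]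
  simpa using hW

/-- the Kummer map -/
lemma bk_of {F : Type} [Field F] [NumberField F] {W : WeierstrassCurve ℤ} (hW : W.Δ ≠ 0) (m : ℕ)
    (hS : ∀ (k : ℕ) (x : Sha (base W F)), 2 ^ k • x = 0 → 2 ^ m • x = 0) : BlochKato F W := by
  obtain ⟨h1, Φ, h2⟩ := Pool.Agent.V11329.KI.kummer2 (disc_ne hW F) m hS
  refine ⟨elliptic hW F, fun P hP α => ?_, Φ, fun P hP α c hk => h2 ⟨P, hP⟩ α c hk⟩
  obtain ⟨c, hc⟩ := h1 ⟨P, hP⟩ α
  exact ⟨c.1, c.2, hc⟩

lemma bounded_of_finite {A : Type} [AddCommGroup A]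
    (h : Finite (AddCommGroup.primaryComponent A 2)) :
    ∃ m : ℕ, ∀ (k : ℕ) (x : A), 2 ^ k • x = 0 → 2 ^ m • x = 0 := by
  have h1 : ∀ y : AddCommGroup.primaryComponent A 2, ∃ m : ℕ, 2 ^ m • y = 0 := by
    rintro ⟨y, k, hk⟩
    exact ⟨k, Subtype.ext hk⟩
  choose f hf using h1
  obtain ⟨B, hB⟩ := (Set.finite_range f).bddAbove
  refine ⟨B, fun k x hx => ?_⟩
  have hmem : x ∈ AddCommGroup.primaryComponent A 2 := ⟨k, hx⟩
  have h2 := hf ⟨x, hmem⟩
  have h3 : f ⟨x, hmem⟩ ≤ B := hB ⟨_, rfl⟩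
  have h4 : 2 ^ (f ⟨x, hmem⟩) • x = 0 := congrArg Subtype.val h2
  rw [← Nat.sub_add_cancel h3, pow_add, mul_smul, h4, smul_zero]

/-! #### Curves with a rational point of order two -/

lemma crv_disc {A B : ℤ} (hB : B ≠ 0) (hD : A ^ 2 ≠ 4 * B) : (crv A B).Δ ≠ 0 := by
  have h : (crv A B).Δ = 16 * B ^ 2 * (A ^ 2 - 4 * B) := by
    unfold crv WeierstrassCurve.Δ WeierstrassCurve.b₂ WeierstrassCurve.b₄ WeierstrassCurve.b₆
      WeierstrassCurve.b₈
    ring
  rw [h]
  exact mul_ne_zero (mul_ne_zero (by norm_num) (pow_ne_zero 2 hB)) (sub_ne_zero.2 hD)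

lemma base_crv (A B : ℤ) (K : Type) [Field K] :
    base (crv A B) K = (⟨0, A, 0, B, 0⟩ : WeierstrassCurve K) := by
  apply WeierstrassCurve.ext <;> simp [crv, WeierstrassCurve.map]

lemma gc_eq (A B : ℤ) (K : Type) [Field K] : base (crv A B) K = Pool.Agent.Y682.gc A B K :=
  base_crv A B K

/-- a common bound -/
lemma common {ι : Type} [Fintype ι] {X : ι → Type} [∀ i, AddCommGroup (X i)]
    (h : ∀ i, ∃ m : ℕ, ∀ (k : ℕ) (x : X i), 2 ^ k • x = 0 → 2 ^ m • x = 0) :
    ∃ m : ℕ, ∀ (i : ι) (k : ℕ) (x : X i), 2 ^ k • x = 0 → 2 ^ m • x = 0 := by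
  choose f hf using h
  refine ⟨∑ i, f i, fun i k x hx => ?_⟩
  have h1 : f i ≤ ∑ i, f i := Finset.single_le_sum (fun _ _ => Nat.zero_le _) (Finset.mem_univ i)
  rw [← Nat.sub_add_cancel h1, pow_add, mul_smul, hf i k x hx, smul_zero]

lemma tower_of {K : Type} [Field K] [NumberField K] [IsTotallyReal K]
    (hdeg : Odd (Module.finrank ℚ K)) (hcl : Odd (Nat.card (NCl K)))
    (h2 : (Ideal.span {(2 : 𝓞 K)}).IsPrime) {A B : ℤ} {n : ℕ} (d : Fin n → ℤ) (hd : ∀ i, d i ≠ 0)
    (h : Twists Pair A B d) (h' : Twists FinSha A B d) (hK : Twists (CondK K) A B d) :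
    Tower K A B d := by
  have key : ∀ T : Finset (Fin n),
      SameRank K (A * ∏ i ∈ T, d i) (B * (∏ i ∈ T, d i) ^ 2) ∧
      ∃ m : ℕ, ∀ (k : ℕ) (x : Sha (Pool.Agent.Y682.gc (A * ∏ i ∈ T, d i)
        (B * (∏ i ∈ T, d i) ^ 2) K)), 2 ^ k • x = 0 → 2 ^ m • x = 0 := by
    intro T
    obtain ⟨hB, hD, hred, htype⟩ := h T
    have hfinQ := h' T
    obtain ⟨h3, hbad⟩ := hK T
    obtain ⟨hrk, ⟨e⟩⟩ := @Pool.Agent.Y682.stabH K _ _ _ DivisionRing.toRatAlgebra inferInstance
      (A * ∏ i ∈ T, d i) (B * (∏ i ∈ T, d i) ^ 2) hB hD hred htype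
      (fun h => ⟨fun h' => h3 h (Or.inl h'), fun h' => h3 h (Or.inr h')⟩) h2 hcl hdeg hbad
    refine ⟨hrk, ?_⟩
    have hfin : Finite (AddCommGroup.primaryComponent
        (Sha (Pool.Agent.Y682.gc (A * ∏ i ∈ T, d i) (B * (∏ i ∈ T, d i) ^ 2) K)) 2) := by
      have : Finite (AddCommGroup.primaryComponent (Pool.Agent.TH841.SH.D.Sha
        (Pool.Agent.Y682.gc (A * ∏ i ∈ T, d i) (B * (∏ i ∈ T, d i) ^ 2) ℚ)) 2) := hfinQ
      exact Finite.of_equiv _ e.symm.toEquiv
    exact bounded_of_finite hfin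
  refine ⟨fun T => (key T).1, ?_⟩
  intro F _ _ _ hgen
  obtain ⟨x, hx, hadj⟩ := hgen
  obtain ⟨r, hr⟩ := common fun T => (key T).2
  have hsub : ∀ S : Subfield F, (∀ k : K, algebraMap K F k ∈ S) → (∀ i, x i ∈ S) → S = ⊤ := by
    intro S hS1 hS2
    let S' : IntermediateField K F := Subfield.toIntermediateField S hS1
    have h1 : IntermediateField.adjoin K (Set.range x) ≤ S' := by
      rw [IntermediateField.adjoin_le_iff]
      rintro _ ⟨i, rfl⟩
      exact hS2 i
    rw [hadj] at h1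
    rw [eq_top_iff]
    intro y _
    exact h1 (IntermediateField.mem_top (F := K) (E := F) (x := y))
  have hgal : IsGalois K F := Pool.Agent.V11329.KI.galois d x hx hsub
  have hq := Pool.Agent.V11329.KI.quadB (K := K) (F := F) d x hd hx hsub A B r hr
  obtain ⟨hB, hD, -, -⟩ := h ∅
  simp only [Finset.prod_empty, one_pow, mul_one] at hB hD
  refine bk_of (crv_disc hB hD) (n + r) ?_
  rw [gc_eq]
  exact hq

/-- **Main theorem.**
Let `E : y² = x³ + A x² + B x`, and let `d_1, …, d_n` be nonzero integers (`n = 0` is allowed) such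
that for each of the products `z = ∏_{i ∈ T} d_i` the twist `E_z : y² = x³ + A z x² + B z² x` has
opposite types at `∞` and at `2`, and `Ш(E_z/ℚ)[2^∞]` is finite.
(1) Let `K` be a totally real number field of odd degree and odd narrow class number such that the ideal
`(2)` of the ring of integers is prime, and such that the condition `CondK` (at the bad primes, and at
`2` if `3` divides the degree of `K`) holds for the curves `E_z`.  Then `rank E_z(K) = rank E_z(ℚ)` for
all `z`, and for `F = K(√d_1, …, √d_n)` the Kummer map `E(F) ⊗ ℚ₂ → H¹_f(F, V₂ E)` is an isomorphism.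
(2) This holds for all the layers `K` of the cyclotomic `ℤ₃`-extension of `ℚ` (the subfields of odd
degree of the `3 ^ (m + 1)`-th cyclotomic fields), without an assumption on `K`, if the pairs are not
exceptional at `2` and the bad primes of the curves `E_z` are `3` or `2, 4, 5, 7` modulo `9`, or satisfy
`AtBad`. -/
theorem result (A B : ℤ) (n : ℕ) (d : Fin n → ℤ) (hd : ∀ i, d i ≠ 0) (h : Twists Pair A B d)
    (h' : Twists FinSha A B d) :
    (∀ (K : Type) [Field K] [NumberField K] [IsTotallyReal K],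
      Odd (Module.finrank ℚ K) → Odd (Nat.card (NCl K)) → (Ideal.span {(2 : 𝓞 K)}).IsPrime →
      Twists (CondK K) A B d → Tower K A B d) ∧
    (∀ (m : ℕ) (M : Type) [Field M] [NumberField M]
      [IsCyclotomicExtension {3 ^ (m + 1)} ℚ M] (K : IntermediateField ℚ M),
      Odd (Module.finrank ℚ K) → Twists (CondL K) A B d → Tower K A B d) := by
  refine ⟨fun K _ _ _ hdeg hcl h2 hK => tower_of hdeg hcl h2 d hd h h' hK,
    fun m M _ _ _ K hodd hbad => ?_⟩
  obtain ⟨h2, -, hN⟩ := Pool.Agent.Y682.XD.three_hyp m M K hodd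
  have hz : NeZero (3 ^ (m + 1)) := ⟨pow_ne_zero _ (by norm_num)⟩
  have hreal : IsTotallyReal K := by
    obtain ⟨φ', -⟩ := Pool.Agent.Y682.XT.exists_phi (3 ^ (m + 1)) M
    have hre : Pool.Agent.Y682.XT.IsRe (3 ^ (m + 1)) M K := Pool.Agent.Y682.XT.re_of_odd hodd
    exact ⟨Pool.Agent.Y682.XT.real_place (q := 3 ^ (m + 1)) (φ := φ') hre⟩
  refine tower_of hodd hN (by exact_mod_cast h2) d hd h h' fun T => ⟨fun _ => (hbad T).1,
    fun p hp hpd => ?_⟩
  have hin : (p % 9 = 2 ∨ p % 9 = 4 ∨ p % 9 = 5 ∨ p % 9 = 7) →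
      AtBad K (A * ∏ i ∈ T, d i) (B * (∏ i ∈ T, d i) ^ 2) p := by
    intro h9
    left
    intro v w hv hw
    obtain ⟨u, -, hu⟩ := Pool.Agent.Y682.XT.place_unique hp
      (Pool.Agent.Y682.YQ.inert9 m M K hodd hp h9)
    rw [(hu v).1 hv, (hu w).1 hw]
  rcases (hbad T).2 p hp hpd with h3 | h9 | h9 | h9 | h9 | h9
  · subst h3
    left
    exact fun v w hv hw => Pool.Agent.Y419.XD.s_ram 3 m Nat.prime_three M K v w hv hw
  · exact hin (Or.inl h9)
  · exact hin (Or.inr (Or.inl h9))
  · exact hin (Or.inr (Or.inr (Or.inl h9)))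
  · exact hin (Or.inr (Or.inr (Or.inr h9)))
  · exact h9

end Pool.Agent.Results.MP_787500_nt.BlochKatoAnyRank
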