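import Pool.Agent.V1157.AJ.Main

/-!
# Abel-Jacobi maps onto Selmer groups with bounded kernels and cokernels are isomorphisms

Fix the dimension `n` (`n = 2 i + 1`) and the codimension `m` (`m = i + 1`). For Abel-Jacobi maps
`B(X) → S(X)`, `B(X)` the homologically trivial cycles of codimension `m` with coefficients in a
field `F` (`ℚ_p`) and `S(X)` (the Selmer group of `H^n(X)`) with an action of the correspondences
of degree zero which is trivial for decomposable ones, the following are equivalent:

1. `e B(X) → e S(X)` is an isomorphism for all `X` of dimension `n` and all idempotent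
   correspondences `e`;
2. `B(X) → S(X)` is an isomorphism for all `X` of dimension `n`;
3. the dimensions of the kernels and cokernels of `B(X) → S(X)` are bounded, by a bound valid for
   all `X` of dimension `n`;
4. self-correspondences commute in their action on the kernels and cokernels;
5. their actions on the kernels and cokernels satisfy a non-zero multilinear polynomial identity.
-/

open CategoryTheory AlgebraicGeometry

universe u v w

namespace Pool.Agent.Results.MP_787500_nt.BoundedDefectsSelmer

open Pool.Agent.H914 Pool.Agent.H914.VarClass Pool.Agent.H914.VarClass.Obj Pool.Agent.W492.BB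
  Pool.Agent.TH133 Pool.Agent.V1157.KF Pool.Agent.V1157.AJ

theorem result {k : Type u} [Field k] {𝒱 : VarClass k} {C : TheoryData.{u, v, 0} 𝒱 ℚ}
    [IsChowProj C] {K : Type w} [Field K] {H : WeilTheoryData.{u, v, w} C K} {n m : ℕ}
    {F : Type} [Field F] [CharZero F] (a : AbelJacobi.{u, v, w} H n m F)
    (hB : ∀ (S : 𝒱.Obj) (N : ℕ), S.dim = n → HasPower C n N S) :
    List.TFAE [IsIsoOnParts a, IsIso a, ∃ D, BothAtMost a D, Commuting a,
      ∃ (d : ℕ) (c : Equiv.Perm (Fin d) → F), c ≠ 0 ∧ Identity a d c] :=
  aj_main a hB

end Pool.Agent.Results.MP_787500_nt.BoundedDefectsSelmer
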