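import Mathlib
import Pool.Agent.Y723.SJ.Def
import Pool.Agent.Y723.SJ.Cmp
import Pool.Agent.Y723.JG.Main
import Pool.Agent.Y723.JG.Tail
import Pool.Agent.TH344.SG.Cor
import Pool.Agent.Y723.PT.Main
import Pool.Agent.Y676.Tsm
import Pool.Agent.Y660.TS.Rnk
import Pool.Agent.Y46.KEY.Key
import Pool.Agent.V11329.JS.Vec
import Pool.Agent.V11329.JS.Jac

/-!
# Bloch–Kato Selmer groups of curves of every genus: bounded moments, and surjectivity of the
# Abel–Jacobi map for a positive proportion of tiny twists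

The case `i = 0`, `p = 2`: `X` is the curve `y² = (x - a_0) (x - a_1) ... (x - a_{2 g})` of genus `g`
over `ℚ`, with distinct integers `a_i`, and `J` is its Jacobian.  (Every hyperelliptic curve over `ℚ` of
genus `g` all of whose `2 g + 2` Weierstrass points are rational is isomorphic over `ℚ` to such a
curve.)  The Abel–Jacobi map is the Kummer map `J(ℚ) ⊗ ℚ₂ → H¹_f(ℚ, V₂ J)`.

We prove: the dimension of `H¹_f(ℚ, V₂ J)` is finite, it is at most the 2-rank of `J(ℚ) / 2` plus the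
2-rank of `Ш(J)[2]`, and the dimension of the cokernel of the Abel–Jacobi map is at most the corank of
the 2-primary part of `Ш(J)`.  Outside of a set of curves of density zero all the moments of
`2 ^ (dim H¹_f(ℚ, V₂ J))` are bounded, and the upper density of the curves with `dim ≥ r` decays faster
than any exponential.  For almost all curves and for a positive proportion of the primes `q` up to any
bound larger than a power of `log max |a_i|`, the twist `J_q` satisfies `Ш(J_q)[2^∞] = 0` and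
`H¹_f(ℚ, V₂ J_q) = 0`.

The points, the Galois action, the cocycles and `Ш(J)` are defined in `Pool.Agent.Y723.SJ.Def`, the
rational Tate module `V 2 A` of an abelian group `A` and its structure of a vector space over `ℚ₂` in
`Pool.Agent.V11329.JS.Vec`: its elements are the sequences `x₀, x₁, …` of elements of 2-power order of
`A` with `2 x_{n+1} = x_n`.  The theorem of Mordell and Weil is not used.
-/

set_option autoImplicit false

namespace Pool.Agent.Results.MP_787500_nt.JacobianSelmer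

open Finset Filter Topology Pool.Agent.Y723.SJ Pool.Agent.TH344.SG

open Pool.Agent.V11329.JS (V)

/-! ### The Selmer group -/

section selmer

variable {g : ℕ} (a : Fin (2 * g + 1) → ℤ)

/-- The maps from the absolute Galois group to `V₂ J`. -/
def Coch : Type := GQ → V 2 (Jac a QB)

/-- the sum of maps -/
noncomputable instance instCoch : AddCommGroup (Coch a) :=
  Pi.addCommGroup (I := GQ) (f := fun _ => V 2 (Jac a QB))

/-- the product of a 2-adic number and a map -/
noncomputable instance modCoch : Module ℚ_[2] (Coch a) :=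
  Pi.Function.module GQ ℚ_[2] (V 2 (Jac a QB))

/-- The Selmer condition for a cocycle `c` with values in `V₂ J`: all its coordinates `σ ↦ c(σ)_n` are
locally constant cocycles with values in `J` that are trivial at all places of `ℚ`. -/
def IsSel (c : Coch a) : Prop := ∀ n, (fun σ => (c σ).seq n) ∈ shaCocycles a

/-- The coboundaries `σ ↦ σ x - x` of the elements `x` of `V₂ J`. -/
def IsCob (c : Coch a) : Prop :=
  ∃ x : V 2 (Jac a QB), ∀ σ n, (c σ).seq n = act a σ (x.seq n) - x.seq n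

lemma sel_zero : IsSel a 0 := (Pool.Agent.V11329.JS.selC a).zero_mem

lemma sel_add {c d : Coch a} (hc : IsSel a c) (hd : IsSel a d) : IsSel a (c + d) :=
  (Pool.Agent.V11329.JS.selC a).add_mem hc hd

lemma sel_smul (α : ℚ_[2]) {c : Coch a} (hc : IsSel a c) : IsSel a (α • c) :=
  (Pool.Agent.V11329.JS.selC a).smul_mem α hc

lemma cob_zero : IsCob a 0 := (Pool.Agent.V11329.JS.cobC a).zero_mem

lemma cob_add {c d : Coch a} (hc : IsCob a c) (hd : IsCob a d) : IsCob a (c + d) :=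
  (Pool.Agent.V11329.JS.cobC a).add_mem hc hd

lemma cob_smul (α : ℚ_[2]) {c : Coch a} (hc : IsCob a c) : IsCob a (α • c) :=
  (Pool.Agent.V11329.JS.cobC a).smul_mem α hc

/-- the vector space of the cocycles with the Selmer condition -/
noncomputable def selCocycles : Submodule ℚ_[2] (Coch a) where
  carrier := {c | IsSel a c}
  zero_mem' := sel_zero a
  add_mem' := sel_add a
  smul_mem' := sel_smul a

/-- the vector space of the coboundaries -/
noncomputable def coboundariesV : Submodule ℚ_[2] (Coch a) where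
  carrier := {c | IsCob a c}
  zero_mem' := cob_zero a
  add_mem' := cob_add a
  smul_mem' := cob_smul a

/-- The Selmer group `H¹_f(ℚ, V₂ J)`: the cocycles with the Selmer condition modulo the coboundaries. -/
def H1f : Type := selCocycles a ⧸ (coboundariesV a).comap (selCocycles a).subtype

/-- its group structure -/
noncomputable instance instH1f : AddCommGroup (H1f a) :=
  Submodule.Quotient.addCommGroup ((coboundariesV a).comap (selCocycles a).subtype)

/-- its structure of a vector space over `ℚ₂` -/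
noncomputable instance modH1f : Module ℚ_[2] (H1f a) :=
  Submodule.Quotient.module ((coboundariesV a).comap (selCocycles a).subtype)

/-- the class of a cocycle -/
noncomputable def cls (c : Coch a) (hc : IsSel a c) : H1f a :=
  Submodule.Quotient.mk (⟨c, hc⟩ : selCocycles a)

/-- `c` is a Kummer cocycle `σ ↦ (σ Q_n - Q_n)_n` of the point `P`: here `Q₀ = P`, `2 Q_{n+1} = Q_n`. -/
def IsKummer (P : Jac a QB) (c : Coch a) : Prop :=
  ∃ Q : ℕ → Jac a QB, Q 0 = P ∧ (∀ n, 2 • Q (n + 1) = Q n) ∧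
    ∀ σ n, (c σ).seq n = act a σ (Q n) - Q n

/-- The image of the Abel–Jacobi map: the subspace of `H¹_f(ℚ, V₂ J)` generated by the classes of the
Kummer cocycles of the points of `J(ℚ)`. -/
noncomputable def imAJ : Submodule ℚ_[2] (H1f a) :=
  Submodule.span ℚ_[2] {x | ∃ P ∈ JacQ a, ∃ (c : Coch a) (hc : IsSel a c),
    IsKummer a P c ∧ x = cls a c hc}

/-- the dimension of `H¹_f(ℚ, V₂ J)` -/
noncomputable def dimH1f : ℕ := Module.finrank ℚ_[2] (H1f a)

/-- the dimension of the cokernel of the Abel–Jacobi map -/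
noncomputable def dimCoker : ℕ := Module.finrank ℚ_[2] (H1f a ⧸ imAJ a)

/-- The corank of the 2-primary part of `Ш(J)`: the largest `t` such that `(ℤ / 2 ^ n) ^ t` embeds
in `Ш(J)` for all `n`. -/
noncomputable def corank : ℕ := corank2 (Sha a)

end selmer

/-! ### The family -/

/-- the tuples of distinct integers of absolute value at most `X` -/
def Fam (g X : ℕ) : Set (Fin (2 * g + 1) → ℤ) := {a | Function.Injective a ∧ ∀ i, |a i| ≤ X}

/-- the proportion of the tuples of `S` among the tuples of `Fam g X` -/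
noncomputable def proportion {g : ℕ} (S : Set (Fin (2 * g + 1) → ℤ)) (X : ℕ) : ℝ :=
  ((Fam g X ∩ S).ncard : ℝ) / (Fam g X).ncard

/-- the upper density of a set of tuples -/
noncomputable def upperDensity {g : ℕ} (S : Set (Fin (2 * g + 1) → ℤ)) : ℝ :=
  limsup (proportion S) atTop

/-- The tuple `(q a_0, ..., q a_{2 g})`. The curve `y² = ∏ (x - q a_i)` is the quadratic twist
`q y² = ∏ (x - a_i)` of the curve `y² = ∏ (x - a_i)`: multiply `x` by `q` and `y` by `q ^ (g + 1)`. -/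
def twist {g : ℕ} (q : ℕ) (a : Fin (2 * g + 1) → ℤ) : Fin (2 * g + 1) → ℤ := fun i => (q : ℤ) * a i

/-- The primes `q ≤ Q` such that the twist `J_q` satisfies `#(J_q(ℚ) / 2 ^ m) = 2 ^ (2 g)` and
`Ш(J_q)[2 ^ m] = 0` for all `m ≥ 1`, and `H¹_f(ℚ, V₂ J_q) = 0`. -/
def Good {g : ℕ} (Q : ℕ) (a : Fin (2 * g + 1) → ℤ) : Set ℕ :=
  {q | q ≤ Q ∧ q.Prime ∧ (∀ m : ℕ, 1 ≤ m →
    Nat.card (QuotQ (twist q a) (2 ^ m)) = 2 ^ (2 * g) ∧
      Nat.card (ShaTorsion (twist q a) (2 ^ m)) = 1) ∧ Subsingleton (H1f (twist q a))}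

/-! ### Proofs -/

lemma Fam_eq (g X : ℕ) :
    Fam g X = (Pool.Agent.Y723.JG.Fm (2 * g + 1) X : Set (Fin (2 * g + 1) → ℤ)) := by
  classical
  ext a
  unfold Fam Pool.Agent.Y723.JG.Fm
  rw [Set.mem_ofPred_eq, mem_coe, mem_filter, Pool.Agent.TH344.JG.BadAux.mem_box, and_comm]
  simp only [mem_Icc, abs_le]

lemma Fam_ncard (g X : ℕ) : (Fam g X).ncard = (Pool.Agent.Y723.JG.Fm (2 * g + 1) X).card := by
  rw [Fam_eq, Set.ncard_coe_finset]

lemma upperDensity_eq {g : ℕ} (S : Set (Fin (2 * g + 1) → ℤ)) :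
    upperDensity S = Pool.Agent.Y723.JG.ud (Pool.Agent.Y723.JG.Fm (2 * g + 1)) S := by
  unfold upperDensity Pool.Agent.Y723.JG.ud proportion Pool.Agent.Y723.JG.ratio
  simp only [Fam_eq, Set.ncard_coe_finset]

/-- one curve -/
lemma curve {g : ℕ} {a : Fin (2 * g + 1) → ℤ} (ha : Function.Injective a) :
    Finite (ShaTorsion a 2) ∧ Finite (QuotQ a 2) ∧
      Nat.card (QuotQ a 2) * Nat.card (ShaTorsion a 2) ≤ (Pool.Agent.TH344.JG.SelJ a).ncard := by
  have hfin := Pool.Agent.Y723.JG.selJ_fin ⟨g, rfl⟩ ha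
  have h := sha_sel_pow ha hfin 1
  simpa only [pow_one] using h

lemma dims {g : ℕ} {a : Fin (2 * g + 1) → ℤ} (ha : Function.Injective a) :
    Module.Finite ℚ_[2] (H1f a) ∧
      2 ^ dimH1f a ≤ Nat.card (QuotQ a 2) * Nat.card (ShaTorsion a 2) ∧ dimCoker a ≤ corank a := by
  obtain ⟨h1, h2, -⟩ := curve ha
  have h : Module.Finite ℚ_[2] (H1f a) ∧
      2 ^ Module.finrank ℚ_[2] (H1f a) ≤ Nat.card (QuotQ a 2) * Nat.card (ShaTorsion a 2) ∧
      ∀ K : Submodule ℚ_[2] (H1f a),
        (∀ c : selCocycles a, (∃ Q : ℕ → Jac a QB, Q 0 ∈ JacQ a ∧ (∀ n, 2 • Q (n + 1) = Q n) ∧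
          ∀ σ n, (c.1 σ).seq n = act a σ (Q n) - Q n) → cls a c.1 c.2 ∈ K) →
        Module.finrank ℚ_[2] (H1f a ⧸ K) ≤ corank2 (Sha a) :=
    @Pool.Agent.V11329.JS.dimsJ g a (selCocycles a) (coboundariesV a)
      (fun c => Iff.rfl) (fun c => Iff.rfl) ha h1 h2
  refine ⟨h.1, h.2.1, h.2.2 (imAJ a) ?_⟩
  rintro c ⟨Q, hQ0, hQ⟩
  exact Submodule.subset_span ⟨Q 0, hQ0, c.1, c.2, ⟨Q, rfl, hQ⟩, rfl⟩

/-- the Kummer classes -/
lemma kummer {g : ℕ} {a : Fin (2 * g + 1) → ℤ} (ha : Function.Injective a) {P : Jac a QB}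
    (hP : P ∈ JacQ a) : (∃ c : Coch a, IsSel a c ∧ IsKummer a P c) ∧
      ∀ c d : Coch a, IsKummer a P c → IsKummer a P d → IsCob a (c - d) := by
  constructor
  · choose f hf using Pool.Agent.V11329.JS.div2J ha
    obtain ⟨Q, hQ0, hQ⟩ : ∃ Q : ℕ → Jac a QB, Q 0 = P ∧ ∀ n, 2 • Q (n + 1) = Q n :=
      ⟨fun n => Nat.rec P (fun _ x => f x) n, rfl, fun n => hf _⟩
    have h0 : Q 0 ∈ Pool.Agent.V11329.KI.Fix (Pool.Agent.V11329.JS.sJ a) := by
      rw [hQ0]
      exact hP
    exact ⟨fun σ => Pool.Agent.V11329.JS.kc (Pool.Agent.V11329.JS.sJ a) Q h0 hQ σ,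
      fun n => Pool.Agent.V11329.JS.cob_mem ha (Q n), Q, hQ0, hQ, fun σ n => rfl⟩
  · rintro c d ⟨Q, hQ0, hQ, hc⟩ ⟨R, hR0, hR, hd⟩
    have hX : ∀ n, 2 • (Q (n + 1) - R (n + 1)) = Q n - R n := by
      intro n
      rw [smul_sub, hQ, hR]
    have h5 : ∀ n, (2 ^ n : ℕ) • (Q n - R n) = 0 := by
      intro n
      have h6 := Pool.Agent.V11329.KI.IsV.shift (p := 2) (x := fun n => Q n - R n) hX 0 n
      rw [zero_add] at h6
      rw [h6]
      show Q 0 - R 0 = 0
      rw [hQ0, hR0, sub_self]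
    refine ⟨(⟨fun n => Q n - R n, fun n => ⟨hX n, n, h5 n⟩⟩ :
      Pool.Agent.V11329.JS.VT 2 (Jac a QB)), fun σ n => ?_⟩
    show (c σ).seq n - (d σ).seq n = act a σ (Q n - R n) - (Q n - R n)
    have e := map_sub (Pool.Agent.V11329.JS.sJ a σ) (Q n) (R n)
    have e' : act a σ (Q n - R n) = act a σ (Q n) - act a σ (R n) := e
    rw [hc, hd, e']
    abel

lemma dim_le {g : ℕ} {a : Fin (2 * g + 1) → ℤ} (ha : Function.Injective a) :
    2 ^ dimH1f a ≤ (Pool.Agent.TH344.JG.SelJ a).ncard := (dims ha).2.1.trans (curve ha).2.2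

lemma good_of {g : ℕ} {Q : ℕ} {a : Fin (2 * g + 1) → ℤ} (ha : Function.Injective a) :
    (Pool.Agent.Y723.PT.TQ Q a : Set ℕ) ⊆ Good Q a := by
  classical
  intro q hq
  rw [mem_coe] at hq
  unfold Pool.Agent.Y723.PT.TQ at hq
  rw [mem_filter, mem_Icc] at hq
  obtain ⟨⟨-, h1⟩, h2, h3⟩ := hq
  have hinj : Function.Injective (twist q a) := by
    intro i j hij
    apply ha
    have hq0 : (q : ℤ) ≠ 0 := by exact_mod_cast h2.ne_zero
    exact mul_left_cancel₀ hq0 hij
  refine ⟨h1, h2, h3, ?_⟩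
  have h4 := h3 1 le_rfl
  have h5 := h3 2 (by norm_num)
  rw [pow_one] at h4
  refine @Pool.Agent.V11329.JS.vanishJ g (twist q a) (selCocycles (twist q a))
    (coboundariesV (twist q a)) (fun c => Iff.rfl) (fun c => Iff.rfl) hinj h4.2 ?_ ?_
  · have h6 : Nat.card (QuotQ (twist q a) 2) = 2 ^ (2 * g) := h4.1
    rw [h6]
    positivity
  · exact h5.1.trans h4.1.symm

lemma good_finite {g : ℕ} (Q : ℕ) (a : Fin (2 * g + 1) → ℤ) : (Good Q a).Finite :=
  (Set.finite_Iic Q).subset fun _ hq => hq.1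

/-- **Theorem.** Let `g ≥ 1`, and let `J` be the Jacobian of `y² = ∏ (x - a i)`.
(1) For every tuple `a` of distinct integers and every point `P` of `J(ℚ)` there is a Kummer cocycle of
`P`, it satisfies the Selmer condition and its class does not depend on the choice. `H¹_f(ℚ, V₂ J)` is a
vector space over `ℚ₂` of finite dimension with `2 ^ dim ≤ #(J(ℚ) / 2) * #Ш(J)[2]` (both finite), and
the dimension of the cokernel of the Abel–Jacobi map `J(ℚ) ⊗ ℚ₂ → H¹_f(ℚ, V₂ J)` is at most the corank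
of the 2-primary part of `Ш(J)`.
(2) There is a set `Z` of tuples of density zero such that for all `k` the sum of the `k`-th powers of
`2 ^ dim H¹_f(ℚ, V₂ J)` over the tuples of `Fam g X` outside of `Z` is at most `C_k * #(Fam g X)`.
(3) For every `A`, the upper density of the tuples with `dim H¹_f(ℚ, V₂ J) ≥ r` times `A ^ r` tends to
zero for `r → ∞`.
(4) There is a constant `C` such that for every `ε > 0` there are `c > 0` and `X₀` such that for all
`X ≥ X₀` and all `Q ≥ (log X) ^ C`, for all but at most `ε * #(Fam g X)` of the tuples `a` of `Fam g X`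
there are at least `c * Q / log Q` primes `q ≤ Q` such that the twist `J_q` of `J` satisfies
`#(J_q(ℚ) / 2 ^ m) = 2 ^ (2 g)` and `Ш(J_q)[2 ^ m] = 0` for all `m ≥ 1`, and `H¹_f(ℚ, V₂ J_q) = 0`. -/
theorem result (g : ℕ) (hg : 1 ≤ g) :
    (∀ a : Fin (2 * g + 1) → ℤ, Function.Injective a →
      (∀ P ∈ JacQ a, (∃ c : Coch a, IsSel a c ∧ IsKummer a P c) ∧
        ∀ c d : Coch a, IsKummer a P c → IsKummer a P d → IsCob a (c - d)) ∧
      Module.Finite ℚ_[2] (H1f a) ∧ Finite (QuotQ a 2) ∧ Finite (ShaTorsion a 2) ∧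
      2 ^ dimH1f a ≤ Nat.card (QuotQ a 2) * Nat.card (ShaTorsion a 2) ∧
      dimCoker a ≤ corank a) ∧
    (∃ Z : Set (Fin (2 * g + 1) → ℤ), Tendsto (proportion Z) atTop (𝓝 0) ∧
      ∀ k : ℕ, ∃ C : ℝ, ∀ X : ℕ,
        ∑ᶠ a ∈ Fam g X \ Z, ((2 ^ dimH1f a : ℕ) : ℝ) ^ k ≤ C * (Fam g X).ncard) ∧
    (∀ A : ℝ, Tendsto (fun r : ℕ => A ^ r *
      upperDensity {a : Fin (2 * g + 1) → ℤ | r ≤ dimH1f a}) atTop (𝓝 0)) ∧
    ∃ C : ℕ, ∀ ε : ℝ, 0 < ε → ∃ c : ℝ, 0 < c ∧ ∃ X₀ : ℕ, ∀ X : ℕ, X₀ ≤ X →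
      ∀ Q : ℕ, (Real.log X) ^ C ≤ Q →
        ((Fam g X ∩ {a | ¬ c * Q / Real.log Q ≤ ((Good Q a).ncard : ℝ)}).ncard : ℝ) ≤
          ε * (Fam g X).ncard := by
  classical
  have hn : 3 ≤ 2 * g + 1 := by omega
  have hodd : Odd (2 * g + 1) := ⟨g, rfl⟩
  have hexc := Pool.Agent.Y723.JG.exc (2 * g + 1) hn hodd
  have hExc : Pool.Agent.Y723.JG.Exc (Pool.Agent.Y723.JG.Fm (2 * g + 1))
      (fun a => (Pool.Agent.TH344.JG.SelJ a).ncard) := hexc
  have hinj : ∀ {X : ℕ} {a : Fin (2 * g + 1) → ℤ},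
      a ∈ Pool.Agent.Y723.JG.Fm (2 * g + 1) X → Function.Injective a := by
    intro X a ha
    unfold Pool.Agent.Y723.JG.Fm at ha
    exact (mem_filter.1 ha).2
  refine ⟨fun a ha => ⟨fun P hP => kummer ha hP, (dims ha).1, (curve ha).2.1, (curve ha).1, (dims ha).2.1, (dims ha).2.2⟩,
    ?_, fun A => ?_, ?_⟩
  · obtain ⟨Z, hZ1, hZ2⟩ := hexc
    refine ⟨Z, ?_, fun k => ?_⟩
    · rw [Metric.tendsto_atTop]
      intro ε hε
      obtain ⟨H0, hH0⟩ := hZ1 (ε / 2) (by positivity)
      refine ⟨H0, fun H hH => ?_⟩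
      have h1 := hH0 H hH
      have h2 : (Fam g H ∩ Z).ncard =
          ((Pool.Agent.Y723.JG.Fm (2 * g + 1) H).filter (fun c => c ∈ Z)).card := by
        rw [← Set.ncard_coe_finset, Fam_eq]
        congr 1
        ext c
        simp
      unfold proportion
      rw [h2, Fam_ncard, Real.dist_eq, sub_zero, abs_of_nonneg (by positivity)]
      rcases Nat.eq_zero_or_pos (Pool.Agent.Y723.JG.Fm (2 * g + 1) H).card with h0 | h0
      · rw [h0, Nat.cast_zero, div_zero]
        exact hε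
      · rw [div_lt_iff₀ (by exact_mod_cast h0)]
        have h3 : (0 : ℝ) < (Pool.Agent.Y723.JG.Fm (2 * g + 1) H).card := by exact_mod_cast h0
        have h4 : ε / 2 * ((Pool.Agent.Y723.JG.Fm (2 * g + 1) H).card : ℝ) <
            ε * (Pool.Agent.Y723.JG.Fm (2 * g + 1) H).card :=
          mul_lt_mul_of_pos_right (by linarith) h3
        exact lt_of_le_of_lt h1 h4
    · obtain ⟨C, hC⟩ := hZ2 k
      refine ⟨C, fun H => ?_⟩
      have h1 : Fam g H \ Z =
          (((Pool.Agent.Y723.JG.Fm (2 * g + 1) H).filter (fun c => c ∉ Z) :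
            Finset (Fin (2 * g + 1) → ℤ)) : Set (Fin (2 * g + 1) → ℤ)) := by
        rw [Fam_eq]
        ext c
        simp
      rw [h1, finsum_mem_coe_finset, Fam_ncard]
      have h2 := hC H
      refine le_trans ?_ h2
      refine le_trans (sum_le_sum (g := fun a : Fin (2 * g + 1) → ℤ =>
        ((Pool.Agent.TH344.JG.SelJ a).ncard : ℝ) ^ k) fun c hc => ?_) (le_of_eq ?_)
      · rw [mem_filter] at hc
        have h4 := dim_le (hinj hc.1)
        exact pow_le_pow_left₀ (Nat.cast_nonneg _) (by exact_mod_cast h4) k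
      · refine sum_congr ?_ fun c _ => rfl
        congr
  · simp only [upperDensity_eq]
    apply Pool.Agent.Y723.JG.tail hExc 1
    intro r H c hc hr
    rw [pow_one]
    exact le_trans (Nat.pow_le_pow_right (by norm_num) hr) (dim_le (hinj hc))
  · refine ⟨Pool.Agent.Y723.PT.CE (2 * g + 1), fun ε hε => ?_⟩
    obtain ⟨c, hc, X0, h⟩ := Pool.Agent.Y723.PT.mainJ
      (Pool.Agent.Y46.KEY.key_of Pool.Agent.Y660.TS.rnk Pool.Agent.Y676.Tsm.tsm) hg ε hε
    refine ⟨c, hc, X0, fun X hX Q hQ => ?_⟩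
    have h1 := h X hX Q hQ
    rw [Fam_ncard]
    refine le_trans ?_ h1
    have h2 : Fam g X ∩ {a | ¬ c * Q / Real.log Q ≤ ((Good Q a).ncard : ℝ)} ⊆
        (((Pool.Agent.Y723.JG.Fm (2 * g + 1) X).filter
          (fun a => ¬ c * Q / Real.log Q ≤ ((Pool.Agent.Y723.PT.TQ Q a).card : ℝ)) :
            Finset (Fin (2 * g + 1) → ℤ)) : Set (Fin (2 * g + 1) → ℤ)) := by
      rintro a ⟨ha, hb⟩
      rw [coe_filter, Set.mem_ofPred_eq]
      rw [Fam_eq] at ha
      refine ⟨ha, fun h3 => hb (h3.trans ?_)⟩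
      have h4 : (Pool.Agent.Y723.PT.TQ Q a).card ≤ (Good Q a).ncard := by
        rw [← Set.ncard_coe_finset]
        exact Set.ncard_le_ncard (good_of (hinj ha)) (good_finite Q a)
      exact_mod_cast h4
    have h3 := Set.ncard_le_ncard h2 (finite_toSet _)
    rw [Set.ncard_coe_finset] at h3
    exact_mod_cast h3

end Pool.Agent.Results.MP_787500_nt.JacobianSelmer
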